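import Mathlib
import Pool.Agent.W223.AK.Defs

/-!
# ABSJ: energy of a product set in a finite abelian group, from the moments
-/

set_option autoImplicit false

namespace Pool.Agent.W681.AK

open Finset Pool.Agent.W223.AK

/-- weighted Hoelder inequality with bounds -/
theorem hoelder {G ι : Type*} [Fintype G] (s : Finset ι) (θ B : ι → ℝ) (a : ι → G → ℝ)
    (hθ : ∀ i ∈ s, 0 ≤ θ i) (hsum : ∑ i ∈ s, θ i = 1) (hB : ∀ i ∈ s, 0 < B i)
    (ha : ∀ i ∈ s, ∀ χ, 0 ≤ a i χ) (n : ℝ)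
    (hab : ∀ i ∈ s, ∑ χ, a i χ ≤ n * B i) :
    ∑ χ, ∏ i ∈ s, (a i χ) ^ (θ i) ≤ n * ∏ i ∈ s, (B i) ^ (θ i) := by
  have hBp : 0 < ∏ i ∈ s, (B i) ^ (θ i) := Finset.prod_pos fun i hi => Real.rpow_pos_of_pos (hB i hi) _
  have h1 : ∀ χ, ∏ i ∈ s, (a i χ) ^ (θ i) ≤
      (∏ i ∈ s, (B i) ^ (θ i)) * ∑ i ∈ s, θ i * (a i χ / B i) := by
    intro χ
    have h2 : ∏ i ∈ s, (a i χ) ^ (θ i) = (∏ i ∈ s, (B i) ^ (θ i)) * ∏ i ∈ s, (a i χ / B i) ^ (θ i) := by
      rw [← Finset.prod_mul_distrib]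
      refine Finset.prod_congr rfl fun i hi => ?_
      rw [← Real.mul_rpow (hB i hi).le (div_nonneg (ha i hi χ) (hB i hi).le)]
      congr 1
      field_simp [(hB i hi).ne']
    rw [h2]
    exact mul_le_mul_of_nonneg_left (Real.geom_mean_le_arith_mean_weighted s θ
      (fun i => a i χ / B i) hθ hsum fun i hi => div_nonneg (ha i hi χ) (hB i hi).le) hBp.le
  calc ∑ χ, ∏ i ∈ s, (a i χ) ^ (θ i)
      ≤ ∑ χ, (∏ i ∈ s, (B i) ^ (θ i)) * ∑ i ∈ s, θ i * (a i χ / B i) :=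
        Finset.sum_le_sum fun χ _ => h1 χ
    _ = (∏ i ∈ s, (B i) ^ (θ i)) * ∑ i ∈ s, θ i * ((∑ χ, a i χ) / B i) := by
        rw [← Finset.mul_sum, Finset.sum_comm]
        congr 1
        refine Finset.sum_congr rfl fun i _ => ?_
        rw [Finset.sum_div, Finset.mul_sum]
    _ ≤ (∏ i ∈ s, (B i) ^ (θ i)) * ∑ i ∈ s, θ i * n := by
        refine mul_le_mul_of_nonneg_left (Finset.sum_le_sum fun i hi => ?_) hBp.le
        refine mul_le_mul_of_nonneg_left ?_ (hθ i hi)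
        rw [div_le_iff₀ (hB i hi)]
        exact hab i hi
    _ = n * ∏ i ∈ s, (B i) ^ (θ i) := by
        rw [← Finset.sum_mul, hsum]
        ring

section

variable {G : Type} [AddCommGroup G] [Fintype G]

/-- character sum over a finite family -/
noncomputable def F {α : Type*} (Ω : Finset α) (g : α → G) (χ : AddChar G ℂ) : ℂ :=
  ∑ ω ∈ Ω, χ (g ω)

theorem orth {α : Type*} (Ω : Finset α) (g : α → G) (c : G) [DecidableEq α]
    [DecidableEq G] :
    ∑ χ : AddChar G ℂ, χ (-c) * (((‖F Ω g χ‖ ^ 2 : ℝ)) : ℂ) =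
      ((Fintype.card G : ℝ) : ℂ) *
        ((((Ω ×ˢ Ω).filter fun p => g p.1 = c + g p.2).card : ℝ) : ℂ) := by
  have h1 : ∀ χ : AddChar G ℂ, χ (-c) * (((‖F Ω g χ‖ ^ 2 : ℝ)) : ℂ) =
      ∑ p ∈ Ω ×ˢ Ω, χ (g p.1 - (c + g p.2)) := by
    intro χ
    have e1 : (((‖F Ω g χ‖ ^ 2 : ℝ)) : ℂ) = F Ω g χ * (starRingEnd ℂ) (F Ω g χ) := by
      rw [Complex.mul_conj, Complex.normSq_eq_norm_sq]
    rw [e1]
    unfold F
    rw [map_sum, Finset.sum_product, Finset.sum_mul_sum, Finset.mul_sum]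
    refine Finset.sum_congr rfl fun ω hω => ?_
    rw [Finset.mul_sum]
    refine Finset.sum_congr rfl fun ω' hω' => ?_
    rw [← AddChar.map_neg_eq_conj, ← AddChar.map_add_eq_mul, ← AddChar.map_add_eq_mul]
    congr 1
    abel
  have h2 : ∀ p ∈ Ω ×ˢ Ω, ∑ χ : AddChar G ℂ, χ (g p.1 - (c + g p.2)) =
      if g p.1 = c + g p.2 then (Fintype.card G : ℂ) else 0 := by
    intro p hp
    rw [AddChar.sum_apply_eq_ite]
    by_cases h : g p.1 = c + g p.2
    · rw [if_pos h, if_pos (by rw [h, sub_self])]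
    · rw [if_neg h, if_neg (fun h' => h (sub_eq_zero.1 h'))]
  rw [Finset.sum_congr rfl fun χ _ => h1 χ, Finset.sum_comm, Finset.sum_congr rfl h2,
    ← Finset.sum_filter, Finset.sum_const, nsmul_eq_mul]
  push_cast
  ring

theorem orth_eq {α : Type*} (Ω : Finset α) (g : α → G) [DecidableEq α] [DecidableEq G] :
    ∑ χ : AddChar G ℂ, ‖F Ω g χ‖ ^ 2 =
      (Fintype.card G : ℝ) * ((((Ω ×ˢ Ω).filter fun p => g p.1 = g p.2).card : ℝ)) := by
  have h := orth Ω g 0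
  simp only [neg_zero, AddChar.map_zero_eq_one, one_mul, zero_add] at h
  exact_mod_cast h

theorem orth_le {α : Type*} (Ω : Finset α) (g : α → G) (c : G) [DecidableEq α] [DecidableEq G] :
    (Fintype.card G : ℝ) * ((((Ω ×ˢ Ω).filter fun p => g p.1 = c + g p.2).card : ℝ)) ≤
      ∑ χ : AddChar G ℂ, ‖F Ω g χ‖ ^ 2 := by
  have h := orth Ω g c
  have h1 : (Fintype.card G : ℝ) * ((((Ω ×ˢ Ω).filter fun p => g p.1 = c + g p.2).card : ℝ)) =
      ‖∑ χ : AddChar G ℂ, χ (-c) * (((‖F Ω g χ‖ ^ 2 : ℝ)) : ℂ)‖ := by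
    rw [h, ← Complex.ofReal_mul, Complex.norm_real, Real.norm_eq_abs, abs_of_nonneg (by positivity)]
  rw [h1]
  refine (norm_sum_le _ _).trans (Finset.sum_le_sum fun χ _ => ?_)
  rw [norm_mul, Complex.norm_real, Real.norm_eq_abs, abs_of_nonneg (by positivity)]
  have : ‖χ (-c)‖ ≤ 1 := (AddChar.norm_apply χ _).le
  nlinarith [sq_nonneg ‖F Ω g χ‖]

/-- the sum `S_i` -/
noncomputable def S {ι : Type} (A : Finset ι) (g : ι → G) (χ : AddChar G ℂ) : ℂ :=
  ∑ x ∈ A, χ (g x)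

theorem S_norm_le {ι : Type} (A : Finset ι) (g : ι → G) (χ : AddChar G ℂ) :
    ‖S A g χ‖ ≤ A.card := by
  unfold S
  refine (norm_sum_le _ _).trans ?_
  have h1 : ∑ x ∈ A, ‖χ (g x)‖ ≤ ∑ x ∈ A, (1 : ℝ) :=
    Finset.sum_le_sum fun x _ => (AddChar.norm_apply χ _).le
  refine h1.trans ?_
  rw [Finset.sum_const, nsmul_eq_mul, mul_one]

theorem map_sum' {β : Type} (s : Finset β) (f : β → G) (χ : AddChar G ℂ) :
    χ (∑ i ∈ s, f i) = ∏ i ∈ s, χ (f i) := by
  classical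
  induction s using Finset.induction_on with
  | empty => simp
  | insert a s ha ih => rw [Finset.sum_insert ha, Finset.prod_insert ha, AddChar.map_add_eq_mul, ih]

theorem prod_eq {ι : Type} {n : ℕ} (A : Fin n → Finset ι) (g : Fin n → ι → G)
    (χ : AddChar G ℂ) :
    F (Fintype.piFinset fun i => A i) (fun x => ∑ i, g i (x i)) χ = ∏ i, S (A i) (g i) χ := by
  unfold F S
  rw [Finset.prod_univ_sum]
  exact Finset.sum_congr rfl fun x _ => map_sum' _ _ _

theorem pwr_eq {ι : Type} (A B : Finset ι) (g g' : ι → G) (h : ℕ) (χ : AddChar G ℂ) :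
    F (A ×ˢ (Fintype.piFinset fun _ : Fin h => B)) (fun x => g x.1 + ∑ j, g' (x.2 j)) χ =
      S A g χ * S B g' χ ^ h := by
  unfold F
  rw [Finset.sum_product]
  have h1 : S B g' χ ^ h = ∑ u ∈ Fintype.piFinset (fun _ : Fin h => B), ∏ j, χ (g' (u j)) := by
    rw [← Finset.prod_univ_sum (t := fun _ : Fin h => B) (f := fun _ u => χ (g' u))]
    rw [Finset.prod_const, Finset.card_univ, Fintype.card_fin]
    rfl
  rw [h1]
  unfold S
  rw [Finset.sum_mul_sum]
  refine Finset.sum_congr rfl fun x _ => Finset.sum_congr rfl fun u _ => ?_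
  rw [AddChar.map_add_eq_mul]
  exact congrArg _ (map_sum' _ _ _)

theorem moment {ι : Type} (A B : Finset ι) (g g' : ι → G) (h : ℕ) (M : ℝ)
    (hM : ∀ Q : Finset ((ι × ι) × ((Fin h → ι) × (Fin h → ι))),
      (∀ t ∈ Q, t.1.1 ∈ A ∧ t.1.2 ∈ A ∧ (∀ m, t.2.1 m ∈ B) ∧ (∀ m, t.2.2 m ∈ B) ∧
        g t.1.1 + ∑ m, g' (t.2.1 m) = g t.1.2 + ∑ m, g' (t.2.2 m)) → (Q.card : ℝ) ≤ M) :
    ∑ χ : AddChar G ℂ, ‖S A g χ‖ ^ 2 * (‖S B g' χ‖ ^ 2) ^ h ≤ (Fintype.card G : ℝ) * M := by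
  classical
  set Ω : Finset (ι × (Fin h → ι)) := A ×ˢ (Fintype.piFinset fun _ : Fin h => B) with hΩ
  set k : ι × (Fin h → ι) → G := fun x => g x.1 + ∑ j, g' (x.2 j) with hk
  have h1 : ∀ χ : AddChar G ℂ, ‖S A g χ‖ ^ 2 * (‖S B g' χ‖ ^ 2) ^ h = ‖F Ω k χ‖ ^ 2 := by
    intro χ
    rw [hΩ, hk, pwr_eq, norm_mul, norm_pow, mul_pow, ← pow_mul, ← pow_mul, mul_comm 2 h]
  rw [Finset.sum_congr rfl fun χ _ => h1 χ, orth_eq Ω k]
  refine mul_le_mul_of_nonneg_left ?_ (Nat.cast_nonneg _)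
  set P := (Ω ×ˢ Ω).filter fun p => k p.1 = k p.2 with hPd
  set φ : (ι × (Fin h → ι)) × (ι × (Fin h → ι)) → (ι × ι) × ((Fin h → ι) × (Fin h → ι)) :=
    fun p => ((p.1.1, p.2.1), (p.1.2, p.2.2)) with hφ
  have hinj : Function.Injective φ := by
    rintro ⟨⟨a, b⟩, ⟨c, d⟩⟩ ⟨⟨a', b'⟩, ⟨c', d'⟩⟩ hh
    simp only [hφ, Prod.mk.injEq] at hh ⊢
    tauto
  rw [← Finset.card_image_of_injective P hinj]
  refine hM (P.image φ) ?_
  intro t ht
  obtain ⟨p, hp, rfl⟩ := mem_image.1 ht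
  rw [hPd, mem_filter, mem_product, hΩ, mem_product, mem_product, Fintype.mem_piFinset,
    Fintype.mem_piFinset] at hp
  obtain ⟨⟨⟨a1, a2⟩, ⟨a3, a4⟩⟩, a5⟩ := hp
  exact ⟨a1, a3, a2, a4, a5⟩

/-- the main inequality for the big classes -/
theorem big {ι : Type} {n : ℕ} (H : ℕ) (X R Λ : ℝ) (A : Fin n → Finset ι) (g : Fin n → ι → G)
    (ν : Fin n → ℝ) (hR : 1 ≤ R) (hν : ∀ i, 0 ≤ ν i) (hνX : ∑ i, ν i ≤ X)
    (hmom : ∀ (i j : Fin n) (h : ℕ), h ≤ H → ν i + h * ν j ≤ 2 * X →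
      ∑ χ : AddChar G ℂ, ‖S (A i) (g i) χ‖ ^ 2 * (‖S (A j) (g j) χ‖ ^ 2) ^ h ≤
        (Fintype.card G : ℝ) * (R * Real.exp (ν i + h * ν j) *
          (1 + Real.exp (ν i + h * ν j - Λ))))
    (I : Finset (Fin n)) (hI : I.Nonempty)
    (h2 : ∀ i ∈ I, 0 < ν i) (hH : ∀ i ∈ I, ∀ h : ℕ, h * ν i ≤ X + ν i → h ≤ H) :
    ∑ χ : AddChar G ℂ, ∏ i ∈ I, ‖S (A i) (g i) χ‖ ^ 2 ≤
      (Fintype.card G : ℝ) * (R * Real.exp (∑ i ∈ I, ν i) *
        (1 + Real.exp (3 / 2 * ∑ i, ν i - Λ))) := by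
  classical
  obtain ⟨i1, hi1, hmax⟩ := Finset.exists_max_image I ν hI
  set I' := I.erase i1 with hI'
  set Z : ℝ := ∑ i ∈ I', ν i with hZ
  have hZ0 : 0 ≤ Z := Finset.sum_nonneg fun i _ => hν i
  have hNZ : ν i1 + Z = ∑ i ∈ I, ν i := by rw [hZ, hI', Finset.add_sum_erase I ν hi1]
  have hIX : ∑ i ∈ I, ν i ≤ ∑ i, ν i :=
    Finset.sum_le_sum_of_subset_of_nonneg (subset_univ _) fun i _ _ => hν i
  have hle : ∀ i ∈ I', ν i ≤ Z := fun i hi =>
    Finset.single_le_sum (f := ν) (fun j _ => hν j) hi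
  set h0 : Fin n → ℕ := fun i => ⌈Z / ν i⌉₊ with hh0d
  have hI'ne : ∀ i ∈ I', i ≠ i1 := fun i hi => ne_of_mem_erase hi
  have hI'I : ∀ i ∈ I', i ∈ I := fun i hi => mem_of_mem_erase hi
  have hh0 : ∀ i ∈ I', 1 ≤ h0 i ∧ Z ≤ h0 i * ν i ∧ h0 i * ν i ≤ Z + ν i := by
    intro i hi
    have hp := h2 i (hI'I i hi)
    refine ⟨?_, ?_, ?_⟩
    · have : 0 < Z / ν i := div_pos (lt_of_lt_of_le hp (hle i hi)) hp
      exact Nat.ceil_pos.2 this
    · have := Nat.le_ceil (Z / ν i)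
      rw [div_le_iff₀ hp] at this
      exact this
    · have := (Nat.ceil_lt_add_one (div_nonneg hZ0 hp.le)).le
      calc (h0 i : ℝ) * ν i ≤ (Z / ν i + 1) * ν i := mul_le_mul_of_nonneg_right this hp.le
        _ = Z + ν i := by field_simp
  set h : Fin n → ℕ := fun i => if i = i1 then 0 else h0 i with hh
  set θ : Fin n → ℝ := fun i => if i = i1 then 1 - ∑ j ∈ I', 1 / (h0 j : ℝ) else 1 / (h0 i : ℝ)
    with hθ
  -- sum of the weights
  have hsum1 : ∑ j ∈ I', 1 / (h0 j : ℝ) ≤ 1 := by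
    rcases I'.eq_empty_or_nonempty with he | ⟨j0, hj0⟩
    · rw [he]; simp
    have hZp : 0 < Z := lt_of_lt_of_le (h2 j0 (hI'I j0 hj0)) (hle j0 hj0)
    have h3 : ∀ j ∈ I', 1 / (h0 j : ℝ) ≤ ν j / Z := by
      intro j hj
      obtain ⟨a1, a2, a3⟩ := hh0 j hj
      have a1' : (0 : ℝ) < h0 j := by exact_mod_cast a1
      rw [div_le_div_iff₀ a1' hZp, one_mul]
      linarith
    calc ∑ j ∈ I', 1 / (h0 j : ℝ) ≤ ∑ j ∈ I', ν j / Z := Finset.sum_le_sum h3
      _ = 1 := by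
          rw [← Finset.sum_div]
          exact div_self hZp.ne'
  have hθsum : ∑ i ∈ I, θ i = 1 := by
    rw [← Finset.add_sum_erase I θ hi1]
    have e1 : θ i1 = 1 - ∑ j ∈ I', 1 / (h0 j : ℝ) := by simp [hθ]
    have e2 : ∑ x ∈ I.erase i1, θ x = ∑ j ∈ I', 1 / (h0 j : ℝ) := by
      refine Finset.sum_congr rfl fun i hi => ?_
      simp only [hθ]
      rw [if_neg (hI'ne i hi)]
    rw [e1, e2]
    ring
  have hθ0 : ∀ i ∈ I, 0 ≤ θ i := by
    intro i _
    simp only [hθ]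
    split_ifs
    · linarith
    · positivity
  -- sizes
  have hpow : ∀ i ∈ I, h i * ν i ≤ Z + ν i := by
    intro i hi
    by_cases hi' : i = i1
    · simp only [hh, hi', if_true, Nat.cast_zero, zero_mul]
      have := hν i1
      linarith
    · simp only [hh, if_neg hi']
      exact (hh0 i (mem_erase.2 ⟨hi', hi⟩)).2.2
  have hZX : Z ≤ X := by
    have := hν i1
    linarith
  have hhH : ∀ i ∈ I, h i ≤ H := by
    intro i hi
    refine hH i hi (h i) ?_
    have := hpow i hi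
    linarith
  set Y : ℝ := ∑ i, ν i with hY
  have hY0 : 0 ≤ Y := Finset.sum_nonneg fun i _ => hν i
  have hsize : ∀ i ∈ I, ν i1 + h i * ν i ≤ 3 / 2 * Y := by
    intro i hi
    by_cases hi' : i = i1
    · have e3 : ν i1 + h i * ν i ≤ Y := by
        simp only [hh, hi', if_true, Nat.cast_zero, zero_mul, add_zero]
        linarith
      linarith
    · have e1 := hpow i hi
      have e2 : ν i + ν i ≤ Y := by
        have a1 := hmax i hi
        have a2 := hle i (mem_erase.2 ⟨hi', hi⟩)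
        linarith
      linarith
  -- the bounds
  set C0 : ℝ := R * (1 + Real.exp (3 / 2 * Y - Λ)) with hC0
  have hC0p : 0 < C0 := by
    rw [hC0]
    have := Real.exp_pos (3 / 2 * Y - Λ)
    have hRp : 0 < R := by linarith
    positivity
  have hmain := hoelder I θ (fun i => C0 * (Real.exp (ν i1) * Real.exp (ν i) ^ h i))
    (fun i (χ : AddChar G ℂ) => ‖S (A i1) (g i1) χ‖ ^ 2 * (‖S (A i) (g i) χ‖ ^ 2) ^ h i)
    hθ0 hθsum
    (fun i hi => by
      have := Real.exp_pos (ν i1)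
      have := Real.exp_pos (ν i)
      positivity) (fun i hi χ => by positivity) (Fintype.card G : ℝ) (fun i hi => by
      have e0 : ν i1 + h i * ν i ≤ 2 * X := by
        have := hsize i hi
        have : Y ≤ X := hνX
        linarith
      refine (hmom i1 i (h i) (hhH i hi) e0).trans ?_
      refine mul_le_mul_of_nonneg_left ?_ (Nat.cast_nonneg _)
      have e3 : Real.exp (ν i1 + h i * ν i - Λ) ≤ Real.exp (3 / 2 * Y - Λ) :=
        Real.exp_le_exp.2 (by linarith [hsize i hi])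
      have e4 : 0 ≤ R * Real.exp (ν i1 + h i * ν i) := by
        have : 0 < R := by linarith
        positivity
      have e5 : Real.exp (ν i1 + h i * ν i) = Real.exp (ν i1) * Real.exp (ν i) ^ h i := by
        rw [Real.exp_add, ← Real.exp_nat_mul]
      calc R * Real.exp (ν i1 + h i * ν i) * (1 + Real.exp (ν i1 + h i * ν i - Λ))
          ≤ R * Real.exp (ν i1 + h i * ν i) * (1 + Real.exp (3 / 2 * Y - Λ)) :=
            mul_le_mul_of_nonneg_left (by linarith) e4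
        _ = C0 * (Real.exp (ν i1) * Real.exp (ν i) ^ h i) := by rw [hC0, e5]; ring)
  -- identify both sides
  have hexp : ∀ i ∈ I', (h i : ℝ) * θ i = 1 := by
    intro i hi
    simp only [hh, hθ]
    rw [if_neg (hI'ne i hi), if_neg (hI'ne i hi)]
    have : (0 : ℝ) < h0 i := by exact_mod_cast (hh0 i hi).1
    field_simp
  have hgen : ∀ (a : ℝ) (b : Fin n → ℝ), 0 < a → (∀ i, 0 ≤ b i) →
      ∏ i ∈ I, (a * (b i) ^ h i) ^ θ i = a * ∏ i ∈ I', b i := by
    intro a b ha hb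
    have e1 : ∀ i ∈ I, (a * (b i) ^ h i) ^ θ i = a ^ θ i * ((b i) ^ h i) ^ θ i := fun i _ =>
      Real.mul_rpow ha.le (pow_nonneg (hb i) _)
    rw [Finset.prod_congr rfl e1, Finset.prod_mul_distrib]
    congr 1
    · rw [← Real.rpow_sum_of_pos ha, hθsum, Real.rpow_one]
    · rw [← Finset.mul_prod_erase I _ hi1]
      have e2 : (b i1 ^ h i1) ^ θ i1 = 1 := by simp [hh]
      rw [e2, one_mul]
      refine Finset.prod_congr rfl fun i hi => ?_
      rw [← Real.rpow_natCast, ← Real.rpow_mul (hb i), hexp i hi, Real.rpow_one]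
  have hgen0 : ∀ (a : ℝ) (b : Fin n → ℝ), 0 ≤ a → (∀ i, 0 ≤ b i) →
      a * ∏ i ∈ I', b i ≤ ∏ i ∈ I, (a * (b i) ^ h i) ^ θ i := by
    intro a b ha hb
    rcases ha.eq_or_lt with ha0 | ha0
    · rw [← ha0, zero_mul]
      exact Finset.prod_nonneg fun i _ => Real.rpow_nonneg (by rw [zero_mul]) _
    · exact (hgen a b ha0 hb).ge
  have hL : ∀ χ : AddChar G ℂ, ∏ i ∈ I, ‖S (A i) (g i) χ‖ ^ 2 ≤
      ∏ i ∈ I, (‖S (A i1) (g i1) χ‖ ^ 2 * (‖S (A i) (g i) χ‖ ^ 2) ^ h i) ^ θ i := by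
    intro χ
    have := hgen0 (‖S (A i1) (g i1) χ‖ ^ 2)
      (fun i => ‖S (A i) (g i) χ‖ ^ 2) (by positivity) (fun i => by positivity)
    refine le_trans (le_of_eq ?_) this
    rw [← Finset.mul_prod_erase I _ hi1]
  refine (Finset.sum_le_sum fun χ _ => hL χ).trans (hmain.trans ?_)
  refine mul_le_mul_of_nonneg_left ?_ (Nat.cast_nonneg _)
  have e5 : ∏ i ∈ I, (C0 * (Real.exp (ν i1) * Real.exp (ν i) ^ h i)) ^ θ i =
      C0 * Real.exp (ν i1) * ∏ i ∈ I', Real.exp (ν i) := by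
    have e6 := hgen (C0 * Real.exp (ν i1)) (fun i => Real.exp (ν i))
      (mul_pos hC0p (Real.exp_pos _)) (fun i => (Real.exp_pos _).le)
    rw [← e6]
    refine Finset.prod_congr rfl fun i _ => ?_
    rw [← mul_assoc C0]
  rw [e5, ← Real.exp_sum, mul_assoc, ← Real.exp_add, ← hZ, hNZ, hC0]
  apply le_of_eq
  ring

end

theorem absj : StmtABSJ := by
  classical
  intro n ε hε
  obtain ⟨η, hη⟩ : ∃ η : ℝ, η = ε / ((n : ℝ) + 1) := ⟨_, rfl⟩
  have hηp : 0 < η := by rw [hη]; positivity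
  obtain ⟨H, hH⟩ := exists_nat_gt (1 / η + 1)
  refine ⟨H, ?_⟩
  intro G _ _ ι X R Λ A g ν hX hR hν hνX hcard hmom c Q hQ
  have : Fintype G := Fintype.ofFinite G
  have hG : (0 : ℝ) < Fintype.card G := by exact_mod_cast Fintype.card_pos
  set Y : ℝ := ∑ i, ν i with hY
  have hRp : 0 < R := by linarith
  set Ω : Finset (Fin n → ι) := Fintype.piFinset fun i => A i with hΩ
  set k : (Fin n → ι) → G := fun x => ∑ i, g i (x i) with hk
  have hQ1 : Q ⊆ (Ω ×ˢ Ω).filter fun p => k p.1 = c + k p.2 := by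
    intro t ht
    obtain ⟨a1, a2⟩ := hQ t ht
    rw [mem_filter, mem_product, hΩ, Fintype.mem_piFinset, Fintype.mem_piFinset]
    exact ⟨⟨fun i => (a1 i).1, fun i => (a1 i).2⟩, a2⟩
  have h1 : (Fintype.card G : ℝ) * Q.card ≤
      ∑ χ : AddChar G ℂ, ∏ i, ‖S (A i) (g i) χ‖ ^ 2 := by
    have e1 := orth_le Ω k c
    have e2 : ∀ χ : AddChar G ℂ, ‖F Ω k χ‖ ^ 2 = ∏ i, ‖S (A i) (g i) χ‖ ^ 2 := by
      intro χ
      rw [hΩ, hk, prod_eq, norm_prod, Finset.prod_pow]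
    rw [Finset.sum_congr rfl fun χ _ => e2 χ] at e1
    refine le_trans ?_ e1
    exact mul_le_mul_of_nonneg_left (by exact_mod_cast card_le_card hQ1) hG.le
  set W : ℝ := 1 + Real.exp (3 / 2 * Y - Λ) with hW
  have hW1 : 1 ≤ W := by
    have := Real.exp_pos (3 / 2 * Y - Λ)
    rw [hW]
    linarith
  suffices hS : ∑ χ : AddChar G ℂ, ∏ i, ‖S (A i) (g i) χ‖ ^ 2 ≤
      (Fintype.card G : ℝ) * (R ^ (2 * n + 1) * Real.exp (ε * X + Y) * W) by
    exact le_of_mul_le_mul_left (h1.trans hS) hG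
  set I : Finset (Fin n) := univ.filter fun i => η * X < ν i with hI
  -- small classes
  have hsmall : ∀ χ : AddChar G ℂ, ∏ i ∈ Iᶜ, ‖S (A i) (g i) χ‖ ^ 2 ≤
      R ^ (2 * n) * Real.exp (ε * X) * Real.exp (∑ i ∈ Iᶜ, ν i) := by
    intro χ
    have hcI : (Iᶜ).card ≤ n := by
      have := (Iᶜ).card_le_univ
      rwa [Fintype.card_fin] at this
    calc ∏ i ∈ Iᶜ, ‖S (A i) (g i) χ‖ ^ 2
        ≤ ∏ i ∈ Iᶜ, (R ^ 2 * Real.exp (η * X) * Real.exp (ν i)) := by
          refine Finset.prod_le_prod (fun i _ => by positivity) fun i hi => ?_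
          have e1 : ν i ≤ η * X := by
            have : i ∉ I := by simpa using hi
            rw [hI, mem_filter] at this
            push Not at this
            exact this (mem_univ i)
          have e2 := (S_norm_le (A i) (g i) χ).trans (hcard i)
          have e3 : 0 ≤ ‖S (A i) (g i) χ‖ := norm_nonneg _
          calc ‖S (A i) (g i) χ‖ ^ 2 ≤ (R * Real.exp (ν i)) ^ 2 := pow_le_pow_left₀ e3 e2 2
            _ = R ^ 2 * Real.exp (ν i) * Real.exp (ν i) := by ring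
            _ ≤ R ^ 2 * Real.exp (η * X) * Real.exp (ν i) := by
                have : Real.exp (ν i) ≤ Real.exp (η * X) := Real.exp_le_exp.2 e1
                have h4 := (Real.exp_pos (ν i)).le
                refine mul_le_mul_of_nonneg_right ?_ h4
                exact mul_le_mul_of_nonneg_left this (by positivity)
      _ = (R ^ 2) ^ (Iᶜ).card * Real.exp (η * X) ^ (Iᶜ).card * Real.exp (∑ i ∈ Iᶜ, ν i) := by
          rw [Finset.prod_mul_distrib, Finset.prod_const, mul_pow, Real.exp_sum]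
      _ ≤ R ^ (2 * n) * Real.exp (ε * X) * Real.exp (∑ i ∈ Iᶜ, ν i) := by
          refine mul_le_mul_of_nonneg_right ?_ (Real.exp_pos _).le
          refine mul_le_mul ?_ ?_ (by positivity) (by positivity)
          · rw [← pow_mul]
            exact pow_le_pow_right₀ hR (by omega)
          · rw [← Real.exp_nat_mul]
            refine Real.exp_le_exp.2 ?_
            have e4 : ((Iᶜ).card : ℝ) ≤ n := by exact_mod_cast hcI
            have e5 : η * ((n : ℝ) + 1) = ε := by rw [hη]; field_simp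
            have e6 : ((Iᶜ).card : ℝ) * (η * X) ≤ ((n : ℝ) + 1) * (η * X) :=
              mul_le_mul_of_nonneg_right (by linarith) (by positivity)
            calc ((Iᶜ).card : ℝ) * (η * X) ≤ ((n : ℝ) + 1) * (η * X) := e6
              _ = (η * ((n : ℝ) + 1)) * X := by ring
              _ = ε * X := by rw [e5]
  have hbigsum : ∑ χ : AddChar G ℂ, ∏ i ∈ I, ‖S (A i) (g i) χ‖ ^ 2 ≤
      (Fintype.card G : ℝ) * (R * Real.exp (∑ i ∈ I, ν i) * W) := by
    rcases I.eq_empty_or_nonempty with he | hne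
    · rw [he]
      simp only [Finset.prod_empty, Finset.sum_const, nsmul_eq_mul, mul_one, Finset.sum_empty,
        Real.exp_zero, Finset.card_univ]
      rw [AddChar.card_eq]
      have : 1 ≤ R * W := one_le_mul_of_one_le_of_one_le hR hW1
      exact le_mul_of_one_le_right hG.le this
    · refine big H X R Λ A g ν hR hν hνX ?_ I hne ?_ ?_
      · intro i j h hh hij
        exact moment (A i) (A j) (g i) (g j) h _ (hmom i j h hh hij)
      · intro i hi
        rw [hI, mem_filter] at hi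
        have : 0 ≤ η * X := by positivity
        linarith [hi.2]
      · intro i hi h hh
        rw [hI, mem_filter] at hi
        have hi2 := hi.2
        have e0 : 0 ≤ η * X := by positivity
        have hνp : 0 < ν i := by linarith
        have e1 : ((h : ℝ) - 1) * ν i ≤ X := by linarith
        by_contra hcon
        push Not at hcon
        have e2 : (H : ℝ) + 1 ≤ h := by exact_mod_cast hcon
        have e3 : 1 / η < (h : ℝ) - 1 := by linarith
        have e4 : 1 < η * ((h : ℝ) - 1) := by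
          rw [div_lt_iff₀ hηp] at e3
          linarith
        have e5 : ((h : ℝ) - 1) * (η * X) ≤ ((h : ℝ) - 1) * ν i := by
          refine mul_le_mul_of_nonneg_left hi2.le ?_
          have : 0 < 1 / η := by positivity
          linarith
        rcases hX.eq_or_lt with hX0 | hXp
        · have e6 : 0 < (h : ℝ) - 1 := by
            have : 0 < 1 / η := by positivity
            linarith
          have : 0 < ((h : ℝ) - 1) * ν i := mul_pos e6 hνp
          linarith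
        · have e7 : ((h : ℝ) - 1) * (η * X) = (η * ((h : ℝ) - 1)) * X := by ring
          have e8 : 1 * X < (η * ((h : ℝ) - 1)) * X := mul_lt_mul_of_pos_right e4 hXp
          linarith
  have hsI : ∑ i ∈ I, ν i + ∑ i ∈ Iᶜ, ν i = Y := Finset.sum_add_sum_compl I ν
  calc ∑ χ : AddChar G ℂ, ∏ i, ‖S (A i) (g i) χ‖ ^ 2
      = ∑ χ : AddChar G ℂ, (∏ i ∈ I, ‖S (A i) (g i) χ‖ ^ 2) *
          ∏ i ∈ Iᶜ, ‖S (A i) (g i) χ‖ ^ 2 :=
        Finset.sum_congr rfl fun χ _ => (Finset.prod_mul_prod_compl I _).symm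
    _ ≤ ∑ χ : AddChar G ℂ, (∏ i ∈ I, ‖S (A i) (g i) χ‖ ^ 2) *
          (R ^ (2 * n) * Real.exp (ε * X) * Real.exp (∑ i ∈ Iᶜ, ν i)) :=
        Finset.sum_le_sum fun χ _ => mul_le_mul_of_nonneg_left (hsmall χ)
          (Finset.prod_nonneg fun i _ => by positivity)
    _ = (∑ χ : AddChar G ℂ, (∏ i ∈ I, ‖S (A i) (g i) χ‖ ^ 2)) *
          (R ^ (2 * n) * Real.exp (ε * X) * Real.exp (∑ i ∈ Iᶜ, ν i)) := by rw [Finset.sum_mul]
    _ ≤ ((Fintype.card G : ℝ) * (R * Real.exp (∑ i ∈ I, ν i) * W)) *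
          (R ^ (2 * n) * Real.exp (ε * X) * Real.exp (∑ i ∈ Iᶜ, ν i)) :=
        mul_le_mul_of_nonneg_right hbigsum (by positivity)
    _ = (Fintype.card G : ℝ) * (R ^ (2 * n + 1) * (Real.exp (ε * X) *
          (Real.exp (∑ i ∈ I, ν i) * Real.exp (∑ i ∈ Iᶜ, ν i))) * W) := by ring
    _ = (Fintype.card G : ℝ) * (R ^ (2 * n + 1) * Real.exp (ε * X + Y) * W) := by
        rw [← Real.exp_add, hsI, ← Real.exp_add]

end Pool.Agent.W681.AK

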